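import Pool.Agent.KS6_39.TT.Main

open Pool.Agent.KS6_39.TT

namespace Pool.Agent.Results.MP_106964_gt.TorusGeodesics

/-- Let `V`, `W` be Euclidean spaces of dimension at least three, `T` the flat torus which is the
product of two great circles of the unit spheres `S(V)`, `S(W)`, and `M` the closed geodesic of
`T` with direction `(a, b)`, where `a` and `b` are coprime non-zero integers.  Then
`S(V) × S(W)`, `T`, `M` is a counterexample to the transfer of tautness (`M` is taut in the totally
geodesic torus `T`, not in the compact symmetric space `S(V) × S(W)`), and so is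
`S(V) × S(W)`, `M`, `M`.  Moreover, for some point `p` of `S(V) × S(W)` which is not a focal
point of `M`, the space of paths from `M` to `p` has zeroth Betti number one over every field
whereas the energy has at least `max 2 |a| |b|` critical points of index zero. -/
theorem result {V W : Type}
    [NormedAddCommGroup V] [InnerProductSpace ℝ V] [FiniteDimensional ℝ V]
    [NormedAddCommGroup W] [InnerProductSpace ℝ W] [FiniteDimensional ℝ W]
    (hV : 3 ≤ Module.finrank ℝ V) (hW : 3 ≤ Module.finrank ℝ W)
    (e : Frame V) (f : Frame W) (a b : ℤ) (ha : a ≠ 0) (hb : b ≠ 0) (hab : IsCoprime a b) :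
    IsCounterexample (sphereProd V W) (flatTorus e f) (torusGeodesic e f a b)
      (Module.finrank ℝ V + Module.finrank ℝ W - 2) 2 1 ∧
    IsCounterexample (sphereProd V W) (torusGeodesic e f a b) (torusGeodesic e f a b)
      (Module.finrank ℝ V + Module.finrank ℝ W - 2) 1 1 ∧
    ∃ p ∈ sphereProd V W, ¬ IsFocal (sphereProd V W) (torusGeodesic e f a b) p ∧
      (∀ (F : Type) [Field F],
        betti F (pathSpace (sphereProd V W) (torusGeodesic e f a b) p) 0 = 1) ∧
      ((max 2 (max a.natAbs b.natAbs) : ℕ) : ℕ∞) ≤
        {g | IsCriticalPoint (pathSpace (sphereProd V W) (torusGeodesic e f a b) p) g ∧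
          index (pathSpace (sphereProd V W) (torusGeodesic e f a b) p) g = 0}.encard := by
  have h0 : IsCompact (sphereProd V W) ∧ IsConnected (sphereProd V W) ∧
      IsSubmanifold (sphereProd V W) (Module.finrank ℝ V + Module.finrank ℝ W - 2) ∧
      IsSymmetric (sphereProd V W) :=
    ⟨isCompact_sphereProd, isConnected_sphereProd hV hW, isSubmanifold_sphereProd hV hW,
      isSymmetric_sphereProd⟩
  refine ⟨⟨h0, ⟨isCompact_flatTorus e f, isConnected_flatTorus e f,
      isSubmanifold_flatTorus e f, isTotallyGeodesic_flatTorus e f⟩,
    ⟨isCompact_torusGeodesic e f a b, isConnected_torusGeodesic e f a b,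
      isSubmanifold_torusGeodesic e f ha hb hab, torusGeodesic_subset e f a b⟩,
    isTaut_torus e f ha hab, not_isTaut hV hW e f ha hb hab⟩,
    ⟨h0, ⟨isCompact_torusGeodesic e f a b, isConnected_torusGeodesic e f a b,
      isSubmanifold_torusGeodesic e f ha hb hab, isTotallyGeodesic_torusGeodesic e f ha hab⟩,
    ⟨isCompact_torusGeodesic e f a b, isConnected_torusGeodesic e f a b,
      isSubmanifold_torusGeodesic e f ha hb hab, le_rfl⟩,
    isTaut_circle e f ha hab, not_isTaut hV hW e f ha hb hab⟩,
    exists_defect hV hW e f ha hb hab⟩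

end Pool.Agent.Results.MP_106964_gt.TorusGeodesics
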